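import Mathlib
import Pool.Agent.Helper111.EPBase
import Pool.Agent.Helper111.EPAll
import Pool.Agent.Helper111.EPCarlitz
import Pool.Agent.Helper111.EPAlt
import Pool.Agent.Helper111.EPOdd
import Pool.Agent.Helper111.EPLL
import Pool.Agent.Helper111.EPEmb
import Pool.Agent.Helper111.EPAltEmb
import Pool.Agent.Helper111.STAll
import Pool.Agent.Helper111.SKAll

set_option autoImplicit false

/-!
# Sections of groups satisfying `[x,_r y] = [x,_s y]` for some `s > r`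
-/

namespace Pool.Agent.Results.MP_0cb9ae_al.FinitelyManyPSL

/-- `G` satisfies the law `[x,_r y] = [x,_s y]` for some `s > r`
(`[z,y] = z⁻¹y⁻¹zy`, `[x,_i y]` is the `i`-th iterate of `z ↦ [z,y]` at `x`). -/
def InV (r : ℕ) (G : Type) [Group G] : Prop :=
  ∃ s : ℕ, r < s ∧ ∀ x y : G,
    (fun z => z⁻¹ * y⁻¹ * z * y)^[r] x = (fun z => z⁻¹ * y⁻¹ * z * y)^[s] x

/-- `Q` is (isomorphic to) a section of `G`: a homomorphic image of a subgroup of `G`. -/
def IsSection (Q G : Type) [Group Q] [Group G] : Prop :=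
  ∃ (H : Subgroup G) (π : H →* Q), Function.Surjective π

theorem hom_iter {A B : Type} [Group A] [Group B] (φ : A →* B) (y : A) (k : ℕ) (x : A) :
    φ ((fun z => z⁻¹ * y⁻¹ * z * y)^[k] x) =
      (fun z => z⁻¹ * (φ y)⁻¹ * z * (φ y))^[k] (φ x) := by
  induction k generalizing x with
  | zero => rfl
  | succ k ih =>
    rw [Function.iterate_succ_apply, Function.iterate_succ_apply, ih]
    simp

theorem InV.of_surj {r : ℕ} {A B : Type} [Group A] [Group B] (φ : A →* B)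
    (hφ : Function.Surjective φ) (h : InV r A) : InV r B := by
  obtain ⟨s, hs, h⟩ := h
  refine ⟨s, hs, fun x y => ?_⟩
  obtain ⟨x, rfl⟩ := hφ x
  obtain ⟨y, rfl⟩ := hφ y
  rw [← hom_iter, ← hom_iter, h]

theorem InV.of_inj {r : ℕ} {A B : Type} [Group A] [Group B] (φ : A →* B)
    (hφ : Function.Injective φ) (h : InV r B) : InV r A := by
  obtain ⟨s, hs, h⟩ := h
  refine ⟨s, hs, fun x y => ?_⟩
  apply hφ
  rw [hom_iter, hom_iter, h]

theorem InV.of_section {r : ℕ} {Q G : Type} [Group Q] [Group G] (hQ : IsSection Q G)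
    (h : InV r G) : InV r Q := by
  obtain ⟨H, π, hπ⟩ := hQ
  exact InV.of_surj π hπ (InV.of_inj H.subtype H.subtype_injective h)

/-! ### characteristic two -/

theorem charP_two (K : Type) [Field K] [Finite K] (f : ℕ) (hK : Nat.card K = 2 ^ f) :
    CharP K 2 := by
  have : Fintype K := Fintype.ofFinite K
  have h1 : Fintype.card K = 2 ^ f := by rw [← Nat.card_eq_fintype_card, hK]
  obtain ⟨p, hp⟩ := CharP.exists K
  obtain ⟨m, hpp, hm⟩ := FiniteField.card K p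
  have h3 : p ∣ 2 ^ f := by
    rw [← h1, hm]
    exact dvd_pow_self p (PNat.ne_zero m)
  have h4 : p = 2 := (Nat.prime_dvd_prime_iff_eq hpp Nat.prime_two).mp (hpp.dvd_of_dvd_pow h3)
  rw [← h4]; exact hp

theorem notInV_SL (r : ℕ) : ∃ f₀ : ℕ, ∀ f : ℕ, f₀ ≤ f → ∀ (K : Type) [Field K] [Finite K],
    Nat.card K = 2 ^ f → ¬ InV r (Matrix.SpecialLinearGroup (Fin 2) K) := by
  obtain ⟨f₀, hf₀⟩ := Pool.Agent.Helper111.EP.exists_lambda (r + 1) (by omega)
  refine ⟨f₀ + r + 3, ?_⟩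
  intro f hf K _ _ hK
  have : Fintype K := Fintype.ofFinite K
  have : CharP K 2 := charP_two K f hK
  obtain ⟨lam, hlam⟩ := hf₀ f (by omega) K hK
  obtain ⟨v, hv1, hv2⟩ := Pool.Agent.Helper111.EPC.carlitz K (r + 1) f hK (by omega) lam hlam
  obtain ⟨x, y, hxy⟩ := Pool.Agent.Helper111.EP.sl2_part K lam v
  rintro ⟨s, hs, h⟩
  have h1 : (fun z => z⁻¹ * y⁻¹ * z * y)^[r + 2] x = (fun z => z⁻¹ * y⁻¹ * z * y)^[s + 2] x := by
    rw [add_comm r, add_comm s, Function.iterate_add_apply, h, ← Function.iterate_add_apply]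
  have h2 := congrArg (fun g : Matrix.SpecialLinearGroup (Fin 2) K => Matrix.trace g.1) h1
  have h2' : (fun v : K => v ^ 2 + lam * v)^[r + 1] v = (fun v : K => v ^ 2 + lam * v)^[s + 1] v := by
    rw [← hxy (r + 1), ← hxy (s + 1)]
    exact h2
  apply hv2
  rw [h2']
  obtain ⟨k, rfl⟩ : ∃ k, s = k + (r + 1) := ⟨s - (r + 1), by omega⟩
  rw [show k + (r + 1) + 1 = k + (r + 1 + 1) by ring, Function.iterate_add_apply, hv1]
  clear * -
  induction k with
  | zero => rfl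
  | succ k ih =>
    rw [Function.iterate_succ_apply]
    simpa using ih

theorem center_trivial (K : Type) [Field K] [CharP K 2]
    (z : Matrix.SpecialLinearGroup (Fin 2) K)
    (hz : z ∈ Subgroup.center (Matrix.SpecialLinearGroup (Fin 2) K)) : z = 1 := by
  rw [Matrix.SpecialLinearGroup.mem_center_iff] at hz
  obtain ⟨c, hc1, hc2⟩ := hz
  have h1 : c = 1 := by
    rw [Fintype.card_fin] at hc1
    have h2 : (c - 1) ^ 2 = 0 := by
      have h3 : (2 : K) = 0 := CharTwo.two_eq_zero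
      linear_combination hc1 + (1 - c) * h3
    have h4 := pow_eq_zero_iff (two_ne_zero) |>.mp h2
    linear_combination h4
  apply Matrix.SpecialLinearGroup.ext
  intro i j
  rw [← hc2, h1]
  simp

theorem notInV_PSL (r : ℕ) : ∃ f₀ : ℕ, ∀ f : ℕ, f₀ ≤ f → ∀ (K : Type) [Field K] [Finite K],
    Nat.card K = 2 ^ f → ¬ InV r (Matrix.ProjectiveSpecialLinearGroup (Fin 2) K) := by
  obtain ⟨f₀, hf₀⟩ := notInV_SL r
  refine ⟨f₀, ?_⟩
  intro f hf K _ _ hK h
  have hSL := hf₀ f (by omega) K hK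
  have : CharP K 2 := charP_two K f hK
  refine hSL (InV.of_inj (QuotientGroup.mk' (Subgroup.center
    (Matrix.SpecialLinearGroup (Fin 2) K))) ?_ h)
  rw [injective_iff_map_eq_one]
  intro a ha
  rw [← MonoidHom.mem_ker, QuotientGroup.ker_mk'] at ha
  exact center_trivial K a ha

/-! ### odd characteristic -/

/-- the law for `PSL` gives the law one step later for `SL` -/
theorem SL_of_PSL {r : ℕ} {A : Type} [Group A] (h : InV r (A ⧸ Subgroup.center A)) :
    InV (r + 1) A := by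
  obtain ⟨s, hs, h⟩ := h
  refine ⟨s + 1, by omega, fun x y => ?_⟩
  rw [Function.iterate_succ_apply', Function.iterate_succ_apply']
  have h1 := h (QuotientGroup.mk' (Subgroup.center A) x) (QuotientGroup.mk' (Subgroup.center A) y)
  rw [← hom_iter, ← hom_iter] at h1
  generalize (fun z => z⁻¹ * y⁻¹ * z * y)^[r] x = a at h1 ⊢
  generalize (fun z => z⁻¹ * y⁻¹ * z * y)^[s] x = b at h1 ⊢
  rw [QuotientGroup.mk'_apply, QuotientGroup.mk'_apply, QuotientGroup.eq] at h1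
  have h2 := Subgroup.mem_center_iff.mp h1
  show a⁻¹ * y⁻¹ * a * y = b⁻¹ * y⁻¹ * b * y
  have h3 : b = a * (a⁻¹ * b) := by group
  rw [h3]
  generalize a⁻¹ * b = c at h2
  have h4 : (a * c)⁻¹ * y⁻¹ * (a * c) = a⁻¹ * y⁻¹ * a := by
    have h5 := h2 (a⁻¹ * y⁻¹ * a)
    calc (a * c)⁻¹ * y⁻¹ * (a * c) = c⁻¹ * ((a⁻¹ * y⁻¹ * a) * c) := by group
      _ = a⁻¹ * y⁻¹ * a := by rw [h5]; group
  rw [h4]

theorem notInV_odd (r : ℕ) (K : Type) [Field K] [Finite K] (hodd : Odd (Nat.card K))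
    (hdvd : 2 ^ (r + 2) ∣ (Nat.card K) ^ 2 - 1) :
    ¬ InV r (Matrix.ProjectiveSpecialLinearGroup (Fin 2) K) := by
  intro h
  have : Fintype K := Fintype.ofFinite K
  have h2 : (2 : K) ≠ 0 := by
    intro h0
    have hc : CharP K 2 := CharTwo.of_one_ne_zero_of_two_eq_zero one_ne_zero h0
    obtain ⟨m, -, hm⟩ := FiniteField.card K 2
    rw [Nat.card_eq_fintype_card, hm] at hodd
    exact (Nat.not_even_iff_odd.mpr hodd) ((Nat.even_pow.mpr ⟨even_two, PNat.ne_zero m⟩))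
  obtain ⟨t, ht⟩ := Pool.Agent.Helper111.EPLL.ll_chain K h2 r hdvd
  obtain ⟨x, y, hxy⟩ := Pool.Agent.Helper111.EPOdd.sl2_odd K h2 t
  obtain ⟨s, hs, hlaw⟩ := SL_of_PSL h
  have h3 := congrArg (fun g : Matrix.SpecialLinearGroup (Fin 2) K => Matrix.trace g.1) (hlaw x y)
  obtain ⟨k, rfl⟩ : ∃ k, s = k + (r + 1) + 1 := ⟨s - (r + 2), by omega⟩
  have h4 : (fun t : K => t ^ 2 - 2)^[r] t = (fun t : K => t ^ 2 - 2)^[k + (r + 1)] t := by
    rw [← hxy r, ← hxy (k + (r + 1))]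
    exact h3
  have h5 : (fun t : K => t ^ 2 - 2)^[r + 1] t = 2 := by
    rw [Function.iterate_succ_apply', ht]
    norm_num
  rw [Function.iterate_add_apply, h5, ht] at h4
  have h6 : (fun t : K => t ^ 2 - 2)^[k] 2 = 2 := by
    clear * -
    induction k with
    | zero => rfl
    | succ k ih =>
      rw [Function.iterate_succ_apply]
      have : (2 : K) ^ 2 - 2 = 2 := by norm_num
      simp only [this]
      exact ih
  rw [h6] at h4
  have h7 : (2 : K) * 2 = 0 := by linear_combination -h4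
  rcases mul_eq_zero.mp h7 with h8 | h8 <;> exact h2 h8

/-! ### alternating groups -/

theorem notInV_alt (r : ℕ) : ∃ n₀ : ℕ, ∀ n : ℕ, n₀ ≤ n → ¬ InV r (alternatingGroup (Fin n)) := by
  obtain ⟨n₀, hn₀⟩ := Pool.Agent.Helper111.EPAlt.alt_part r
  refine ⟨n₀, fun n hn => ?_⟩
  obtain ⟨x, y, k, h1, h2⟩ := hn₀ n hn
  rintro ⟨s, hs, h⟩
  have hper : ∀ m : ℕ, (fun z => z⁻¹ * y⁻¹ * z * y)^[r + m * (s - r)] x =
      (fun z => z⁻¹ * y⁻¹ * z * y)^[r] x := by
    intro m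
    induction m with
    | zero => simp
    | succ m ih =>
      have e1 : r + (m + 1) * (s - r) = s + m * (s - r) := by
        have : (m + 1) * (s - r) = m * (s - r) + (s - r) := by ring
        omega
      rw [e1, Function.iterate_add_apply, ← h, ← Function.iterate_add_apply, ih]
  apply h1
  rw [← hper k]
  have hle : k ≤ r + k * (s - r) := by
    have : k * 1 ≤ k * (s - r) := Nat.mul_le_mul_left k (by omega)
    omega
  obtain ⟨j, hj⟩ := Nat.exists_eq_add_of_le hle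
  rw [hj, add_comm k j, Function.iterate_add_apply, h2]
  clear * -
  induction j with
  | zero => rfl
  | succ j ih =>
    rw [Function.iterate_succ_apply]
    simpa using ih

theorem InV.quot {r : ℕ} {A : Type} [Group A] (h : InV r A) :
    InV r (A ⧸ Subgroup.center A) :=
  InV.of_surj (QuotientGroup.mk' (Subgroup.center A)) (QuotientGroup.mk'_surjective _) h

/-- if `PSL(n,K)` (`n ≥ 2`) satisfies the law then so does `PSL(2,K)` -/
theorem PSL_two_of_PSL {r n : ℕ} (hn : 2 ≤ n) (K : Type) [Field K]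
    (h : InV r (Matrix.ProjectiveSpecialLinearGroup (Fin n) K)) :
    InV r (Matrix.ProjectiveSpecialLinearGroup (Fin 2) K) := by
  rcases Nat.lt_or_ge n 3 with h3 | h3
  · obtain rfl : n = 2 := by omega
    exact h
  · obtain ⟨φ, hφ⟩ := Pool.Agent.Helper111.EPEmb.sl2_emb n h3 K
    exact InV.quot (InV.of_inj φ hφ h)

theorem alt_of_PSL {r n : ℕ} (K : Type) [Field K]
    (h : InV r (Matrix.ProjectiveSpecialLinearGroup (Fin n) K)) :
    InV r (alternatingGroup (Fin n)) := by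
  obtain ⟨φ, hφ⟩ := Pool.Agent.Helper111.EPAltEmb.alt_emb n K
  exact InV.of_inj φ hφ h

/-! ### large characteristic -/

theorem notInV_SL_prime (r : ℕ) : ∃ p₀ : ℕ, ∀ (p : ℕ) [Fact p.Prime], p₀ ≤ p →
    ¬ InV r (Matrix.SpecialLinearGroup (Fin 2) (ZMod p)) := by
  obtain ⟨p₀, hp₀⟩ := Pool.Agent.Helper111.ST.exists_chain r
  refine ⟨p₀ + 3, ?_⟩
  intro p _ hp
  obtain ⟨v, Y, hv, hv1, hc⟩ := hp₀ p (by omega)
  have hp2 : p ≠ 2 := by omega
  obtain ⟨T, μ, w, hμ, hT, hw⟩ := Pool.Agent.Helper111.ST.chain_dyn p hp2 r v Y hv hv1 hc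
  obtain ⟨x, y, hxy⟩ := Pool.Agent.Helper111.ST.sl2_gen p hp2 T μ w hμ hT
  rintro ⟨s, hs, h⟩
  have h1 : (fun z => z⁻¹ * y⁻¹ * z * y)^[r + 2] x = (fun z => z⁻¹ * y⁻¹ * z * y)^[s + 2] x := by
    rw [add_comm r, add_comm s, Function.iterate_add_apply, h, ← Function.iterate_add_apply]
  have h2 := congrArg (fun g : Matrix.SpecialLinearGroup (Fin 2) (ZMod p) => Matrix.trace g.1) h1
  have h3 : 2 + (fun w : ZMod p => w ^ 2 - (T ^ 2 - 4) * w)^[r + 1] w =
      2 + (fun w : ZMod p => w ^ 2 - (T ^ 2 - 4) * w)^[s + 1] w := by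
    rw [← hxy (r + 1), ← hxy (s + 1)]
    exact h2
  have h4 := add_left_cancel h3
  have h5 : (fun w : ZMod p => w ^ 2 - (T ^ 2 - 4) * w)^[r + 2] w = 0 := by
    rw [Function.iterate_succ_apply', hw]
    ring
  obtain ⟨k, hk⟩ : ∃ k, s + 1 = k + (r + 2) := ⟨s + 1 - (r + 2), by omega⟩
  rw [hw, hk, Function.iterate_add_apply, h5] at h4
  have h6 : (fun w : ZMod p => w ^ 2 - (T ^ 2 - 4) * w)^[k] 0 = 0 := by
    clear * -
    induction k with
    | zero => rfl
    | succ k ih =>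
      rw [Function.iterate_succ_apply]
      simpa using ih
  rw [h6, hT] at h4
  exact hμ (pow_eq_zero_iff (two_ne_zero) |>.mp h4)

theorem notInV_PSL_char (r : ℕ) : ∃ p₀ : ℕ, ∀ (p : ℕ), p.Prime → p₀ ≤ p →
    ∀ (K : Type) [Field K] [CharP K p],
    ¬ InV r (Matrix.ProjectiveSpecialLinearGroup (Fin 2) K) := by
  obtain ⟨p₀, hp₀⟩ := notInV_SL_prime (r + 1)
  refine ⟨p₀, ?_⟩
  intro p hpp hp K _ _ h
  have : Fact p.Prime := ⟨hpp⟩
  apply hp₀ p hp
  have h1 : InV (r + 1) (Matrix.SpecialLinearGroup (Fin 2) K) := SL_of_PSL h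
  refine InV.of_inj (Matrix.SpecialLinearGroup.map (ZMod.castHom (dvd_refl p) K)) ?_ h1
  intro a b hab
  apply Matrix.SpecialLinearGroup.ext
  intro i j
  have h2 := congrArg (fun g : Matrix.SpecialLinearGroup (Fin 2) K => g.1 i j) hab
  simp only [Matrix.SpecialLinearGroup.map_apply_coe, RingHom.mapMatrix_apply,
    Matrix.map_apply] at h2
  exact (ZMod.castHom (dvd_refl p) K).injective h2

/-! ### a fixed odd characteristic -/

theorem notInV_PSL_fixed (r p : ℕ) (hpp : p.Prime) (hp2 : p ≠ 2) : ∃ f₀ : ℕ, ∀ f : ℕ, f₀ ≤ f →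
    ∀ (K : Type) [Field K] [Finite K], Nat.card K = p ^ f →
    ¬ InV r (Matrix.ProjectiveSpecialLinearGroup (Fin 2) K) := by
  have : Fact p.Prime := ⟨hpp⟩
  obtain ⟨f₀, hf₀⟩ := Pool.Agent.Helper111.SK.exists_chain p hp2 (r + 1)
  refine ⟨f₀ + 1, ?_⟩
  intro f hf K _ _ hK h'
  have : Fintype K := Fintype.ofFinite K
  have hchar : CharP K p := by
    have h1 : Fintype.card K = p ^ f := by rw [← Nat.card_eq_fintype_card, hK]
    obtain ⟨l, hl⟩ := CharP.exists K
    obtain ⟨m, hll, hm⟩ := FiniteField.card K l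
    have h3 : l ∣ p ^ f := by
      rw [← h1, hm]
      exact dvd_pow_self l (PNat.ne_zero m)
    have h4 : l = p := (Nat.prime_dvd_prime_iff_eq hll hpp).mp (hll.dvd_of_dvd_pow h3)
    rw [← h4]; exact hl
  have h2 : (2 : K) ≠ 0 := by
    intro h0
    have h5 : ((2 : ℕ) : K) = 0 := by exact_mod_cast h0
    rw [CharP.cast_eq_zero_iff K p] at h5
    exact hp2 ((Nat.prime_dvd_prime_iff_eq hpp Nat.prime_two).mp h5)
  obtain ⟨v, Y, hv, hv1, hc⟩ := hf₀ f (by omega) K hK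
  obtain ⟨T, μ, w, hμ, hT, hw⟩ := Pool.Agent.Helper111.SK.chain_dyn K h2 (r + 1) v Y hv hv1 hc
  obtain ⟨x, y, hxy⟩ := Pool.Agent.Helper111.SK.sl2_gen K h2 T μ w hμ hT
  obtain ⟨s, hs, h⟩ := SL_of_PSL h'
  have h1 : (fun z => z⁻¹ * y⁻¹ * z * y)^[r + 3] x = (fun z => z⁻¹ * y⁻¹ * z * y)^[s + 2] x := by
    rw [show r + 3 = 2 + (r + 1) by ring, add_comm s, Function.iterate_add_apply, h,
      ← Function.iterate_add_apply]
  have h2 := congrArg (fun g : Matrix.SpecialLinearGroup (Fin 2) K => Matrix.trace g.1) h1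
  have h3 : 2 + (fun w : K => w ^ 2 - (T ^ 2 - 4) * w)^[r + 2] w =
      2 + (fun w : K => w ^ 2 - (T ^ 2 - 4) * w)^[s + 1] w := by
    rw [← hxy (r + 2), ← hxy (s + 1)]
    exact h2
  have h4 := add_left_cancel h3
  have h5 : (fun w : K => w ^ 2 - (T ^ 2 - 4) * w)^[r + 3] w = 0 := by
    rw [Function.iterate_succ_apply', hw]
    ring
  obtain ⟨k, hk⟩ : ∃ k, s + 1 = k + (r + 3) := ⟨s + 1 - (r + 3), by omega⟩
  rw [hw, hk, Function.iterate_add_apply, h5] at h4
  have h6 : (fun w : K => w ^ 2 - (T ^ 2 - 4) * w)^[k] 0 = 0 := by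
    clear * -
    induction k with
    | zero => rfl
    | succ k ih =>
      rw [Function.iterate_succ_apply]
      simpa using ih
  rw [h6, hT] at h4
  exact hμ (pow_eq_zero_iff (two_ne_zero) |>.mp h4)

/-- all finite fields -/
theorem notInV_PSL_all (r : ℕ) : ∃ q₀ : ℕ, ∀ (K : Type) [Field K] [Finite K], q₀ ≤ Nat.card K →
    ¬ InV r (Matrix.ProjectiveSpecialLinearGroup (Fin 2) K) := by
  obtain ⟨f₂, hf₂⟩ := notInV_PSL r
  obtain ⟨p₀, hp₀⟩ := notInV_PSL_char r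
  have hex : ∀ p : ℕ, ∃ f₀ : ℕ, p.Prime → ∀ f : ℕ, f₀ ≤ f →
      ∀ (K : Type) [Field K] [Finite K], Nat.card K = p ^ f →
      ¬ InV r (Matrix.ProjectiveSpecialLinearGroup (Fin 2) K) := by
    intro p
    by_cases hpp : p.Prime
    · by_cases hp2 : p = 2
      · subst hp2
        exact ⟨f₂, fun _ => hf₂⟩
      · obtain ⟨f₀, hf₀⟩ := notInV_PSL_fixed r p hpp hp2
        exact ⟨f₀, fun _ => hf₀⟩
    · exact ⟨0, fun h => absurd h hpp⟩
  choose F hF using hex
  refine ⟨(∑ p ∈ Finset.range p₀, (p + 1) ^ (F p)) + 1, ?_⟩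
  intro K _ _ hq h
  have : Fintype K := Fintype.ofFinite K
  obtain ⟨p, hp⟩ := CharP.exists K
  obtain ⟨m, hpp, hm⟩ := FiniteField.card K p
  rw [← Nat.card_eq_fintype_card] at hm
  by_cases hlt : p < p₀
  · have h1 : (p + 1) ^ (F p) ≤ ∑ p ∈ Finset.range p₀, (p + 1) ^ (F p) :=
      Finset.single_le_sum (f := fun p : ℕ => (p + 1) ^ (F p)) (fun _ _ => Nat.zero_le _)
        (Finset.mem_range.mpr hlt)
    refine hF p hpp m ?_ K hm h
    by_contra hcon
    have h2 : p ^ (m : ℕ) ≤ (p + 1) ^ (F p) := by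
      calc p ^ (m : ℕ) ≤ (p + 1) ^ (m : ℕ) := Nat.pow_le_pow_left (Nat.le_succ p) _
        _ ≤ (p + 1) ^ (F p) := Nat.pow_le_pow_right (Nat.succ_pos p) (by omega)
    rw [hm] at hq
    omega
  · exact hp₀ p hpp (not_lt.mp hlt) K h

/-- Let `r` be a natural number.
(1) Only finitely many alternating groups satisfy `[x,_r y] = [x,_s y]` for some `s > r`.
(2) Only finitely many groups `PSL(n, q)`, `n ≥ 2`, `q` any prime power, do (finitely many pairs
`(n, q)`).
(3) There is `N` such that a group `G` (finite or not) satisfying the law has no section isomorphic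
to `Alt(n)` with `n ≥ N`, nor to `PSL(n, q)` with `n ≥ 2` and `max(n, q) ≥ N`. -/
theorem result (r : ℕ) :
    {n : ℕ | InV r (alternatingGroup (Fin n))}.Finite ∧
    {a : ℕ × ℕ | 2 ≤ a.1 ∧ ∃ (K : Type) (_ : Field K) (_ : Finite K), Nat.card K = a.2 ∧
      InV r (Matrix.ProjectiveSpecialLinearGroup (Fin a.1) K)}.Finite ∧
    ∃ N : ℕ, ∀ (G : Type) [Group G], InV r G →
      (∀ n : ℕ, N ≤ n → ¬ IsSection (alternatingGroup (Fin n)) G) ∧
      (∀ (K : Type) [Field K] [Finite K] (n : ℕ), 2 ≤ n → N ≤ max n (Nat.card K) →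
        ¬ IsSection (Matrix.ProjectiveSpecialLinearGroup (Fin n) K) G) := by
  obtain ⟨q₀, hq₀⟩ := notInV_PSL_all r
  obtain ⟨n₀, hn₀⟩ := notInV_alt r
  refine ⟨?_, ?_, max q₀ n₀, fun G _ hG => ⟨?_, ?_⟩⟩
  · apply (Set.finite_lt_nat n₀).subset
    intro n hn
    by_contra hlt
    exact hn₀ n (not_lt.mp hlt) hn
  · apply ((Set.finite_lt_nat n₀).prod (Set.finite_lt_nat q₀)).subset
    rintro ⟨n, q⟩ ⟨h1, K, hK1, hK2, hK3, h3⟩
    simp only at h1 hK3 h3
    constructor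
    · by_contra hlt
      exact hn₀ n (not_lt.mp hlt) (alt_of_PSL _ h3)
    · by_contra hlt
      exact hq₀ K (by rw [hK3]; exact not_lt.mp hlt) (PSL_two_of_PSL h1 _ h3)
  · intro n hn hsec
    exact hn₀ n (le_trans (le_max_right _ _) hn) (InV.of_section hsec hG)
  · intro K _ _ n hn hN hsec
    have h3 := InV.of_section hsec hG
    rcases le_max_iff.mp hN with h | h
    · exact hn₀ n (le_trans (le_max_right _ _) h) (alt_of_PSL K h3)
    · exact hq₀ K (le_trans (le_max_left _ _) h) (PSL_two_of_PSL hn K h3)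

end Pool.Agent.Results.MP_0cb9ae_al.FinitelyManyPSL
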